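import Pool.Agent.H89.CY.GapP

/-!
[H69 EA COU] The `t`-th cyclic number before `c n` is near if no dyadic window before `c n` is half bad (mirror image of H69/AL/Cou).
-/

set_option autoImplicit false

namespace Pool.Agent.H69.EA

open Finset Classical Pool.Agent.H89.CY

private theorem cou_nth (n t B : ℕ) (hn : t + 1 ≤ n) (ht : 1 ≤ t) (S : Finset ℕ) (hS : t ≤ S.card)
    (h : ∀ x ∈ S, B ≤ x ∧ x < c n ∧ Cyc x) : B ≤ c (n - t) := by
  by_contra hcon
  push Not at hcon
  have hmono := Nat.nth_strictMono cyc_inf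
  have hsub : S ⊆ (Ioo (n - t - 1) (n - 1)).image (Nat.nth Cyc) := by
    intro x hx
    obtain ⟨h1, h2, h3⟩ := h x hx
    have h4 : Nat.nth Cyc (Nat.count Cyc x) = x := Nat.nth_count h3
    rw [mem_image]
    refine ⟨Nat.count Cyc x, ?_, h4⟩
    rw [mem_Ioo]
    constructor
    · rw [← hmono.lt_iff_lt, h4]
      exact lt_of_lt_of_le hcon h1
    · rw [← hmono.lt_iff_lt, h4]
      exact h2
  have h5 := (card_le_card hsub).trans card_image_le
  rw [Nat.card_Ioo] at h5
  omega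

theorem cou (D k X n I : ℕ) (hD : 2 ≤ D) (hk : 1 ≤ k) (hX : X / D + k + 1 + 2 ^ I ≤ c n / D)
    (hg : ∀ i ≤ I, ¬ (2 ^ i ≤ 2 * ((range (2 ^ i)).filter (fun τ => ∀ j < k,
      ¬ Cyc (1 + D * (X / D + 1) + D * ((c n / D - (X / D + k + 1 + 2 ^ I) + (2 ^ I - τ)) + j)))).card))
    (t : ℕ) (ht : 1 ≤ t) (htn : t + 1 ≤ n) (htI : 2 * k * t ≤ 2 ^ I) : c n ≤ c (n - t) + 8 * k * D * t := by
  have hD0 : 0 < D := by omega
  have hkt : 1 ≤ k * t := Nat.mul_pos hk ht
  have hc13 : c n < D * (c n / D + 1) := Nat.lt_mul_div_succ (c n) hD0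
  have hc14 : D * (c n / D) ≤ c n := Nat.mul_div_le (c n) D
  generalize c n / D = Y at hX hg hc13 hc14
  generalize X / D = A at hX hg
  have hpI0 : 0 < 2 ^ I := by positivity
  -- the scale
  obtain ⟨i, hiI, h1, h2⟩ : ∃ i, i ≤ I ∧ 2 * k * t ≤ 2 ^ i ∧ 2 ^ i < 4 * (k * t) := by
    have hex : ∃ i, 2 * k * t ≤ 2 ^ i := ⟨I, htI⟩
    refine ⟨Nat.find hex, Nat.find_min' hex htI, Nat.find_spec hex, ?_⟩
    rcases Nat.eq_zero_or_pos (Nat.find hex) with h0 | h0
    · rw [h0, pow_zero]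
      omega
    · have h3 : ¬ 2 * k * t ≤ 2 ^ (Nat.find hex - 1) := Nat.find_min hex (by omega)
      have h4 : 2 ^ Nat.find hex = 2 * 2 ^ (Nat.find hex - 1) := by
        rw [← pow_succ']
        congr 1
        omega
      have h5 : 2 * k * t = 2 * (k * t) := by ring
      rw [h4]
      omega
  have hpI : 2 ^ i ≤ 2 ^ I := Nat.pow_le_pow_right (by norm_num) hiI
  obtain ⟨q0, hq0⟩ : ∃ q0, q0 = Y - 1 := ⟨_, rfl⟩
  obtain ⟨u, hu⟩ : ∃ u, Y = A + k + 1 + 2 ^ I + u := ⟨Y - (A + k + 1 + 2 ^ I), by omega⟩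
  have hq0' : q0 = A + k + 2 ^ I + u := by omega
  have hval : ∀ τ a, τ < 2 ^ i → a < k → 1 + D * (A + 1) +
      D * ((Y - (A + k + 1 + 2 ^ I) + (2 ^ I - τ)) + (k - 1 - a)) = 1 + D * (q0 - (τ + a)) := by
    intro τ a hτ ha
    have e : A + 1 + ((Y - (A + k + 1 + 2 ^ I) + (2 ^ I - τ)) + (k - 1 - a)) = q0 - (τ + a) := by
      rw [hu, hq0', Nat.add_sub_cancel_left]
      have hτI : τ < 2 ^ I := lt_of_lt_of_le hτ hpI
      generalize 2 ^ I = P at *
      omega
    rw [← e]
    ring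
  have hb := hg i hiI
  have hcong : (range (2 ^ i)).filter (fun τ => ∀ j < k,
      ¬ Cyc (1 + D * (A + 1) + D * ((Y - (A + k + 1 + 2 ^ I) + (2 ^ I - τ)) + j))) =
      (range (2 ^ i)).filter (fun τ => ∀ a < k, ¬ Cyc (1 + D * (q0 - (τ + a)))) := by
    refine filter_congr fun τ hτ => ⟨fun h a ha => ?_, fun h j hj => ?_⟩
    · have h6 := h (k - 1 - a) (by omega)
      rw [hval τ a (mem_range.1 hτ) ha] at h6
      exact h6
    · have h6 := h (k - 1 - j) (by omega)
      rw [← hval τ (k - 1 - j) (mem_range.1 hτ) (by omega)] at h6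
      have e : k - 1 - (k - 1 - j) = j := by omega
      rw [e] at h6
      exact h6
  rw [hcong] at hb
  obtain ⟨bad, hbad⟩ : ∃ bad, bad = (range (2 ^ i)).filter (fun τ => ∀ j < k,
      ¬ Cyc (1 + D * (q0 - (τ + j)))) := ⟨_, rfl⟩
  obtain ⟨good, hgood⟩ : ∃ good, good = (range (2 ^ i)).filter (fun τ => ¬ ∀ j < k,
      ¬ Cyc (1 + D * (q0 - (τ + j)))) := ⟨_, rfl⟩
  have hcard : bad.card + good.card = 2 ^ i := by
    rw [hbad, hgood, card_filter_add_card_filter_not, card_range]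
  rw [← hbad] at hb
  have hgk : k * t < good.card := by
    have h5 : 2 * k * t = 2 * (k * t) := by ring
    omega
  -- the map
  have hj : ∀ τ, ∃ j, τ ∈ good → j < k ∧ Cyc (1 + D * (q0 - (τ + j))) := by
    intro τ
    by_cases hτ : τ ∈ good
    · have h6 := hτ
      rw [hgood, mem_filter] at h6
      push Not at h6
      obtain ⟨j, hj1, hj2⟩ := h6.2
      exact ⟨j, fun _ => ⟨hj1, hj2⟩⟩
    · exact ⟨0, fun h => absurd h hτ⟩
  choose j hj using hj
  obtain ⟨Q, hQ⟩ : ∃ Q, Q = (range (2 ^ i + k)).filter (fun q => Cyc (1 + D * (q0 - q))) :=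
    ⟨_, rfl⟩
  have hmaps : ∀ τ ∈ good, τ + j τ ∈ Q := by
    intro τ hτ
    obtain ⟨h7, h8⟩ := hj τ hτ
    rw [hQ, mem_filter, mem_range]
    rw [hgood, mem_filter, mem_range] at hτ
    exact ⟨by omega, h8⟩
  have hfib : ∀ q ∈ Q, (good.filter (fun τ => τ + j τ = q)).card ≤ k := by
    intro q _
    have h9 : good.filter (fun τ => τ + j τ = q) ⊆ (range k).image (fun a => q - a) := by
      intro τ hτ
      rw [mem_filter] at hτ
      rw [mem_image]
      refine ⟨j τ, mem_range.2 (hj τ hτ.1).1, ?_⟩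
      omega
    refine (card_le_card h9).trans (card_image_le.trans ?_)
    rw [card_range]
  have hle : good.card ≤ k * Q.card := card_le_mul_card_image_of_maps_to hmaps k hfib
  have htQ : t ≤ Q.card := by
    have h10 : k * t < k * Q.card := lt_of_lt_of_le hgk hle
    exact (Nat.lt_of_mul_lt_mul_left h10).le
  -- the cyclic numbers
  have hqq : ∀ q ∈ Q, q < 2 ^ i + k := by
    intro q hq
    rw [hQ, mem_filter, mem_range] at hq
    exact hq.1
  have hinj : Set.InjOn (fun q => 1 + D * (q0 - q)) (Q : Set ℕ) := by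
    intro a ha b hb' hab
    have h11 : D * (q0 - a) = D * (q0 - b) := by
      have : 1 + D * (q0 - a) = 1 + D * (q0 - b) := hab
      omega
    have h12 := Nat.eq_of_mul_eq_mul_left hD0 h11
    have h13 := hqq a (mem_coe.1 ha)
    have h14 := hqq b (mem_coe.1 hb')
    omega
  have hfin : c n - 8 * k * D * t ≤ c (n - t) := by
    refine cou_nth n t _ htn ht (Q.image fun q => 1 + D * (q0 - q)) ?_ ?_
    · rw [card_image_of_injOn hinj]
      exact htQ
    · intro x hx
      rw [mem_image] at hx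
      obtain ⟨q, hq, rfl⟩ := hx
      have hq1 := hqq q hq
      rw [hQ, mem_filter, mem_range] at hq
      have h13 := hc13
      have h14 := hc14
      have h15 : Y = q0 + 1 := by omega
      rw [h15] at h13 h14
      have h16 : k ≤ k * t := Nat.le_mul_of_pos_right k ht
      have h17 : q + 2 ≤ 8 * (k * t) := by omega
      have h18 : D * (q + 2) ≤ D * (8 * (k * t)) := Nat.mul_le_mul_left D h17
      have h19 : D * (8 * (k * t)) = 8 * k * D * t := by ring
      have h20 : D * (q0 - q) + D * (q + 2) = D * (q0 + 1 + 1) := by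
        rw [← Nat.mul_add]
        congr 1
        omega
      have h21 : D * (q0 - q) ≤ D * q0 := Nat.mul_le_mul_left D (Nat.sub_le _ _)
      have h22 : D * (q0 + 1) = D * q0 + D := by ring
      refine ⟨by omega, by omega, hq.2⟩
  omega

end Pool.Agent.H69.EA
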