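import Pool.Agent.H8.SG.Fin

/-!
[H69 EA DEF] `n` is not a record: some earlier term of the sequence is at most as large.
-/

set_option autoImplicit false

namespace Pool.Agent.H69.EA

open Pool.Agent.H89.CY

/-- `c_n^(1/(n-1)) < c_(m+1)^(1/m)` fails for some `1 ≤ m < n - 1` -/
def PB (n : ℕ) : Prop :=
  ¬ ∀ m : ℕ, 1 ≤ m → m + 1 < n → (c n : ℝ) ^ (1 / ((n : ℝ) - 1)) < (c (m + 1) : ℝ) ^ (1 / (m : ℝ))

end Pool.Agent.H69.EA
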