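import Mathlib

/-!
[H69 EA WIN] Markov over dyadic windows which end at the given point (mirror image of H69/AL/Win).
-/

set_option autoImplicit false

namespace Pool.Agent.H69.EA

open Finset Classical

private theorem win_one (bad : ℕ → Prop) (S I i : ℕ) (hi : i ≤ I) :
    ((range S).filter (fun s =>
      2 ^ i ≤ 2 * ((range (2 ^ i)).filter (fun t => bad (s + (2 ^ I - t)))).card)).card ≤
      2 * ((range (S + 2 ^ I)).filter bad).card := by
  set B := ((range (S + 2 ^ I)).filter bad).card with hB
  set A := (range S).filter (fun s =>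
      2 ^ i ≤ 2 * ((range (2 ^ i)).filter (fun t => bad (s + (2 ^ I - t)))).card) with hA
  have h1 : A.card * 2 ^ i ≤ ∑ s ∈ A, 2 * ((range (2 ^ i)).filter (fun t => bad (s + (2 ^ I - t)))).card := by
    rw [← smul_eq_mul]
    refine Finset.card_nsmul_le_sum _ _ _ ?_
    intro s hs
    exact (mem_filter.1 hs).2
  have h2 : ∑ s ∈ A, 2 * ((range (2 ^ i)).filter (fun t => bad (s + (2 ^ I - t)))).card ≤
      ∑ s ∈ range S, 2 * ((range (2 ^ i)).filter (fun t => bad (s + (2 ^ I - t)))).card :=
    Finset.sum_le_sum_of_subset (filter_subset _ _)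
  have h3 : ∑ s ∈ range S, 2 * ((range (2 ^ i)).filter (fun t => bad (s + (2 ^ I - t)))).card =
      2 * ∑ t ∈ range (2 ^ i), ((range S).filter (fun s => bad (s + (2 ^ I - t)))).card := by
    rw [← Finset.mul_sum]
    simp only [Finset.card_filter]
    rw [Finset.sum_comm]
  have h4 : ∑ t ∈ range (2 ^ i), ((range S).filter (fun s => bad (s + (2 ^ I - t)))).card ≤ 2 ^ i * B := by
    have h := Finset.sum_le_card_nsmul (range (2 ^ i))
      (fun t => ((range S).filter (fun s => bad (s + (2 ^ I - t)))).card) B ?_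
    · rw [card_range, smul_eq_mul] at h
      exact h
    · intro t ht
      refine Finset.card_le_card_of_injOn (fun s => s + (2 ^ I - t)) ?_ ?_
      · intro s hs
        have hs' := mem_filter.1 (Finset.mem_coe.1 hs)
        refine Finset.mem_coe.2 (mem_filter.2 ⟨mem_range.2 ?_, hs'.2⟩)
        have := mem_range.1 hs'.1
        have hp : 0 < 2 ^ I := by positivity
        have hp2 : 2 ^ I - t ≤ 2 ^ I := Nat.sub_le _ _
        show s + (2 ^ I - t) < S + 2 ^ I
        omega
      · intro a _ b _ hab
        exact Nat.add_right_cancel hab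
  have h5 : A.card * 2 ^ i ≤ (2 * B) * 2 ^ i := by
    calc A.card * 2 ^ i ≤ 2 * ∑ t ∈ range (2 ^ i), ((range S).filter (fun s => bad (s + (2 ^ I - t)))).card :=
          (h1.trans h2).trans h3.le
      _ ≤ 2 * (2 ^ i * B) := Nat.mul_le_mul_left _ h4
      _ = (2 * B) * 2 ^ i := by ring
  exact Nat.le_of_mul_le_mul_right h5 (by positivity)

theorem win (bad : ℕ → Prop) (S I : ℕ) :
    ((range S).filter (fun s => ∃ i ≤ I,
      2 ^ i ≤ 2 * ((range (2 ^ i)).filter (fun t => bad (s + (2 ^ I - t)))).card)).card ≤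
      2 * (I + 1) * ((range (S + 2 ^ I)).filter bad).card := by
  have hsub : (range S).filter (fun s => ∃ i ≤ I,
      2 ^ i ≤ 2 * ((range (2 ^ i)).filter (fun t => bad (s + (2 ^ I - t)))).card) ⊆
      (range (I + 1)).biUnion (fun i => (range S).filter (fun s =>
        2 ^ i ≤ 2 * ((range (2 ^ i)).filter (fun t => bad (s + (2 ^ I - t)))).card)) := by
    intro s hs
    obtain ⟨h1, i, hi, h2⟩ := mem_filter.1 hs
    exact mem_biUnion.2 ⟨i, mem_range.2 (Nat.lt_succ_of_le hi), mem_filter.2 ⟨h1, h2⟩⟩
  refine (Finset.card_le_card hsub).trans ?_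
  refine (Finset.card_biUnion_le_card_mul _ _ (2 * ((range (S + 2 ^ I)).filter bad).card) ?_).trans ?_
  · intro i hi
    exact win_one bad S I i (Nat.le_of_lt_succ (mem_range.1 hi))
  · rw [card_range]
    exact le_of_eq (by ring)

end Pool.Agent.H69.EA
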