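import Pool.Agent.H69.AL.Lst
import Pool.Agent.H69.EA.Win
import Pool.Agent.H69.EA.Cou
import Pool.Agent.H69.EA.Def

/-!
[H69 EA FIN] the number of the `n` with `c n` in a short interval which are not records.
-/

set_option autoImplicit false

namespace Pool.Agent.H69.EA

open Finset Classical Filter Pool.Agent.H89.CY Pool.Agent.H8.SG

/-- from logarithms to powers -/
theorem pow_of_log (n m : ℕ) (a b : ℝ) (ha : 0 < a) (hb : 0 < b) (hn : 2 ≤ n) (hm : 1 ≤ m)
    (h : (m : ℝ) * Real.log a < ((n : ℝ) - 1) * Real.log b) :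
    a ^ (1 / ((n : ℝ) - 1)) < b ^ (1 / (m : ℝ)) := by
  have hn' : (2 : ℝ) ≤ n := by exact_mod_cast hn
  have hm' : (1 : ℝ) ≤ m := by exact_mod_cast hm
  rw [Real.rpow_def_of_pos ha, Real.rpow_def_of_pos hb, Real.exp_lt_exp, mul_one_div, mul_one_div,
    div_lt_div_iff₀ (by linarith) (by linarith)]
  linarith

/-- the near terms -/
theorem near_step (n m t : ℕ) (k D : ℕ) (hm : 1 ≤ m) (ht : 1 ≤ t) (hn : n = m + 1 + t)
    (hL : (8 * k * D : ℝ) < Real.log (c (m + 1))) (h : c n ≤ c (m + 1) + 8 * k * D * t) :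
    (c n : ℝ) ^ (1 / ((n : ℝ) - 1)) < (c (m + 1) : ℝ) ^ (1 / (m : ℝ)) := by
  have hmc : m + 1 ≤ c (m + 1) := c_ge (m + 1) (by omega)
  have hmc' : (m : ℝ) + 1 ≤ c (m + 1) := by exact_mod_cast hmc
  have hm0 : (1 : ℝ) ≤ m := by exact_mod_cast hm
  have hc0 : (0 : ℝ) < c (m + 1) := by linarith
  have hlt : c (m + 1) < c n := c_lt (m + 1) n (by omega) (by omega)
  have hlt' : (c (m + 1) : ℝ) < c n := by exact_mod_cast hlt
  have hv0 : (0 : ℝ) < c n := by linarith
  refine pow_of_log n m _ _ hv0 hc0 (by omega) hm ?_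
  have htR : (1 : ℝ) ≤ t := by exact_mod_cast ht
  have hnR : (n : ℝ) = (m : ℝ) + 1 + t := by
    rw [hn]
    push_cast
    ring
  have hR : (c n : ℝ) ≤ c (m + 1) + 8 * k * D * t := by exact_mod_cast h
  have hlog : Real.log (c n : ℝ) ≤ Real.log (c (m + 1)) + (c n - c (m + 1)) / c (m + 1) := by
    have h1 : Real.log ((c n : ℝ) / c (m + 1)) ≤ (c n : ℝ) / c (m + 1) - 1 :=
      Real.log_le_sub_one_of_pos (by positivity)
    rw [Real.log_div hv0.ne' hc0.ne'] at h1
    have h2 : (c n : ℝ) / c (m + 1) - 1 = (c n - c (m + 1)) / c (m + 1) := by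
      field_simp
    linarith
  have h3 : (m : ℝ) * ((c n - c (m + 1)) / c (m + 1)) ≤ c n - c (m + 1) := by
    rw [← mul_div_assoc, div_le_iff₀ hc0]
    have : 0 ≤ (c n : ℝ) - c (m + 1) := by linarith
    nlinarith
  have h4 : 8 * (k : ℝ) * D * t < Real.log (c (m + 1)) * t := by
    have : (0 : ℝ) < t := by linarith
    nlinarith
  have h5 : (m : ℝ) * Real.log (c n : ℝ) ≤
      (m : ℝ) * (Real.log (c (m + 1)) + (c n - c (m + 1)) / c (m + 1)) := by
    apply mul_le_mul_of_nonneg_left hlog (by linarith)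
  rw [hnR]
  nlinarith

/-- the indices from the starting points -/
theorem idx (D X H b : ℕ) (hD : 2 ≤ D) (Q : ℕ → Prop) (E : Finset ℕ)
    (hE : ∀ n, 2 ≤ n → Q n → X < c n → c n ≤ X + H → b ≤ c n / D ∧ c n / D - b ∈ E) :
    NS Q X H ≤ D * E.card := by
  have hD0 : 0 < D := by omega
  have h1 : NS Q X H ≤ (E.biUnion fun s => (range D).image fun r => D * (s + b) + r).card := by
    unfold NS
    rw [← Set.ncard_coe_finset]
    refine Set.ncard_le_ncard_of_injOn c ?_ ?_ (Finset.finite_toSet _)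
    · rintro n ⟨h2, hQ, h3, h4⟩
      obtain ⟨h5, h6⟩ := hE n h2 hQ h3 h4
      rw [mem_coe, mem_biUnion]
      refine ⟨c n / D - b, h6, ?_⟩
      rw [mem_image]
      refine ⟨c n % D, mem_range.2 (Nat.mod_lt _ hD0), ?_⟩
      rw [Nat.sub_add_cancel h5]
      exact Nat.div_add_mod (c n) D
    · rintro n ⟨hn, _⟩ m ⟨hm, _⟩ h
      rcases Nat.lt_trichotomy n m with h1 | h1 | h1
      · have := c_lt n m (by omega) h1
        omega
      · exact h1
      · have := c_lt m n (by omega) h1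
        omega
  refine h1.trans (card_biUnion_le.trans ?_)
  calc ∑ s ∈ E, ((range D).image fun r => D * (s + b) + r).card ≤ ∑ _s ∈ E, D := by
        refine sum_le_sum fun s _ => ?_
        exact card_image_le.trans (by rw [card_range])
    _ = D * E.card := by rw [sum_const, smul_eq_mul, mul_comm]

theorem c3_le : c 3 ≤ 3 := by
  have h : 2 < Nat.count Cyc 4 := by
    have h1 : Cyc 1 := by unfold Cyc; simp
    have h2 : Cyc 2 := by unfold Cyc; decide
    have h3 : Cyc 3 := by unfold Cyc; decide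
    have e : Nat.count Cyc 4 = Nat.count Cyc 1 + 1 + 1 + 1 := by
      rw [show (4 : ℕ) = 3 + 1 from rfl, Nat.count_succ, if_pos h3, show (3 : ℕ) = 2 + 1 from rfl, Nat.count_succ, if_pos h2,
        show (2 : ℕ) = 1 + 1 from rfl, Nat.count_succ, if_pos h1]
    omega
  have h5 := Nat.nth_lt_of_lt_count h
  show Nat.nth Cyc 2 ≤ 3
  omega

theorem finR : ∃ C : ℕ, 2 ≤ C ∧ ∀ (d C0 W0 : ℝ) (x0 : ℕ), 0 < d → d ≤ 1 / 10 → 0 < C0 → BadB d C0 W0 x0 →
    ∃ u0 : ℕ, 1 ≤ u0 ∧ ∀ u : ℕ, u0 ≤ u → ∀ X H : ℕ,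
    Real.exp ((u : ℝ) ^ (6 * C)) ≤ X → (X : ℝ) ≤ Real.exp (((u : ℝ) + 1) ^ (6 * C)) →
    (X : ℝ) ^ (2 / 5 + d) ≤ H → 8 * H ≤ X → (NS PB (X + 2 * H) H : ℝ) ≤ H * Real.exp (-((u : ℝ) / 4)) := by
  obtain ⟨w, C, hw, hC, hsta⟩ := Pool.Agent.H69.AL.staS
  obtain ⟨C7, hC7, h7⟩ := Pool.Agent.H69.CU.all_n7
  refine ⟨C, hC, fun d C0 W0 x0 hd hd1 hC0 hbad => ?_⟩
  obtain ⟨u1, hu1, h1⟩ := hsta 6 (by norm_num) d C0 W0 x0 hd hC0 hbad
  obtain ⟨u2, hu2⟩ := eventually_atTop.1 (ev_pow6 (2 * (6 * C + 2)))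
  obtain ⟨X3, hX3⟩ := eventually_atTop.1 (Pool.Agent.H69.CT.ev_log 2 d (1 / (2 * C7)) hd (by positivity))
  set D := primorial w with hDd
  have hD2 : 2 ≤ D := two_le_prim w hw
  refine ⟨max (max u1 u2) (max (max X3 (c 3)) (max 1000 (max (20 * D) (2 ^ (6 * C))))), ?_, ?_⟩
  · exact hu1.trans ((le_max_left _ _).trans (le_max_left _ _))
  intro u hu X H hX1 hX2 hH1 hH2
  have a1 : u1 ≤ u := ((le_max_left _ _).trans (le_max_left _ _)).trans hu
  have a2 : u2 ≤ u := ((le_max_right _ _).trans (le_max_left _ _)).trans hu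
  have ar := (le_max_right (max u1 u2) _).trans hu
  have a3 : X3 ≤ u := ((le_max_left _ _).trans (le_max_left _ _)).trans ar
  have a4 : c 3 ≤ u := ((le_max_right _ _).trans (le_max_left _ _)).trans ar
  have as := (le_max_right (max X3 (c 3)) _).trans ar
  have a5 : 1000 ≤ u := (le_max_left _ _).trans as
  have a6 : 20 * D ≤ u := ((le_max_left _ _).trans (le_max_right _ _)).trans as
  have a7 : 2 ^ (6 * C) ≤ u := ((le_max_right _ _).trans (le_max_right _ _)).trans as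
  clear hu ar as
  set U : ℝ := (u : ℝ) with hU
  have b5 : (1000 : ℝ) ≤ U := by rw [hU]; exact_mod_cast a5
  have b0 : 0 < U := by linarith
  have b1 : 1 ≤ U := by linarith
  have b6 : 20 * (D : ℝ) ≤ U := by rw [hU]; exact_mod_cast a6
  have b7 : (2 : ℝ) ^ (6 * C) ≤ U := by rw [hU]; exact_mod_cast a7
  have b2 : U ^ (6 * C + 2) ≤ Real.exp (U / 12) := by
    have h2 : (U ^ (6 * C + 2)) ^ 2 ≤ Real.exp (U / 12) ^ 2 := by
      have h3 : (U ^ (6 * C + 2)) ^ 2 = U ^ (2 * (6 * C + 2)) := by rw [← pow_mul]; congr 1; ring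
      have h4 : Real.exp (U / 12) ^ 2 = Real.exp (U / 6) := by
        rw [← Real.exp_nat_mul]
        congr 1
        push_cast
        ring
      rw [h3, h4]
      exact hu2 u a2
    exact le_of_sq_le_sq h2 (Real.exp_pos _).le
  have hX0 : (0 : ℝ) < X := lt_of_lt_of_le (Real.exp_pos _) hX1
  set L := Real.log X with hL
  have hL1 : U ^ (6 * C) ≤ L := by rw [hL, Real.le_log_iff_exp_le hX0]; exact hX1
  have hL2 : L ≤ (U + 1) ^ (6 * C) := by rw [hL, Real.log_le_iff_le_exp hX0]; exact hX2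
  have hXL : (X : ℝ) = Real.exp L := (Real.exp_log hX0).symm
  have hLU : U ≤ L := by
    refine le_trans ?_ hL1
    have := pow_le_pow_right₀ b1 (show 1 ≤ 6 * C by omega)
    rwa [pow_one] at this
  have huX : u ≤ X := by
    have h2 : U ≤ X := by
      have := Real.add_one_le_exp L
      rw [hXL]
      linarith
    rw [hU] at h2
    exact_mod_cast h2
  obtain ⟨k, hk⟩ : ∃ k : ℕ, k = u ^ (4 * C) := ⟨_, rfl⟩
  have hk1 : 1 ≤ k := by rw [hk]; exact Nat.one_le_pow _ _ (by omega)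
  have hkU : (k : ℝ) = U ^ (4 * C) := by rw [hk]; push_cast; rfl
  have hkDL : (16 * k * D : ℝ) < L := by
    have h2 : (16 * k * D : ℝ) ≤ U ^ (4 * C) * U := by
      rw [hkU]
      have : (0 : ℝ) < U ^ (4 * C) := by positivity
      nlinarith
    have h3 : U ^ (4 * C) * U < U ^ (6 * C) := by
      rw [← pow_succ]
      exact pow_lt_pow_right₀ (by linarith) (by omega)
    linarith
  have hk1R : (1 : ℝ) ≤ k := by exact_mod_cast hk1
  have hD2R : (2 : ℝ) ≤ D := by exact_mod_cast hD2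
  have hkD2 : (2 : ℝ) ≤ k * D := by nlinarith
  -- lengths
  have hH0 : (0 : ℝ) < H := lt_of_lt_of_le (Real.rpow_pos_of_pos hX0 _) hH1
  have hLH : L / 4 ≤ H := by
    have h2 : Real.exp (2 / 5 * L) ≤ H := by
      refine le_trans ?_ hH1
      rw [hXL, ← Real.exp_mul]
      apply Real.exp_le_exp.2
      nlinarith
    have h3 := Real.add_one_le_exp (2 / 5 * L)
    linarith
  have hkDH : D * (k + 1) ≤ H := by
    have h2 : (D : ℝ) * (k + 1) ≤ H := by nlinarith
    exact_mod_cast h2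
  have hDH : D ≤ H := le_trans (Nat.le_mul_of_pos_right D (by omega)) hkDH
  have hHD1 : 1 ≤ H / D := (Nat.one_le_div_iff (by omega)).2 hDH
  have hkHD : k + 1 ≤ H / D := by
    rw [Nat.le_div_iff_mul_le (by omega)]
    rw [mul_comm]
    exact hkDH
  obtain ⟨I, hI⟩ : ∃ I : ℕ, I = Nat.log 2 (H / D) := ⟨_, rfl⟩
  have hI1 : 2 ^ I ≤ H / D := by rw [hI]; exact Nat.pow_log_le_self 2 (by omega)
  have hI2 : H / D < 2 ^ (I + 1) := by rw [hI]; exact Nat.lt_pow_succ_log_self (by norm_num) _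
  have hpI0 : 0 < 2 ^ I := by positivity
  -- the bad starting points
  have hsta2 := h1 u a1 X (4 * H) hX1 hX2 (by push_cast; linarith) (by omega)
  rw [← hk] at hsta2
  obtain ⟨bad, hbadd⟩ : ∃ b : ℕ → Prop, b = fun s => ∀ j < k, ¬ Cyc (1 + D * (X / D + 1) + D * (s + j)) := ⟨_, rfl⟩
  have hsta3 : (((range (4 * H / D + 2)).filter bad).card : ℝ) ≤ ((4 * H : ℕ) : ℝ) * Real.exp (-(U / 3)) := by
    rw [hbadd]
    convert hsta2
  have hw1 := win bad (3 * H / D + 2) I
  have hmono : ((range (3 * H / D + 2 + 2 ^ I)).filter bad).card ≤ ((range (4 * H / D + 2)).filter bad).card := by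
    refine card_le_card (filter_subset_filter _ ?_)
    intro s hs
    rw [mem_range] at hs ⊢
    have h2 : 3 * H / D + H / D ≤ 4 * H / D := by
      rw [Nat.le_div_iff_mul_le (by omega)]
      have e1 := Nat.div_mul_le_self (3 * H) D
      have e2 := Nat.div_mul_le_self H D
      calc (3 * H / D + H / D) * D = 3 * H / D * D + H / D * D := by ring
        _ ≤ 4 * H := by omega
    omega
  obtain ⟨b, hb⟩ : ∃ b, b = X / D + k + 1 + 2 ^ I := ⟨_, rfl⟩
  -- the exceptional indices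
  set E := (range (3 * H / D + 2)).filter (fun s => ∃ i ≤ I,
      2 ^ i ≤ 2 * ((range (2 ^ i)).filter (fun t => bad (s + (2 ^ I - t)))).card) with hE
  have hidx : NS PB (X + 2 * H) H ≤ D * E.card := by
    refine idx D (X + 2 * H) H b hD2 PB E ?_
    intro n hn hPB hXn hnH
    have hbn : b ≤ c n / D := by
      have h2 : (X + 2 * H) / D ≤ c n / D := Nat.div_le_div_right hXn.le
      have h3 : X / D + (H / D + H / D) ≤ (X + 2 * H) / D := by
        rw [Nat.le_div_iff_mul_le (by omega)]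
        have e1 := Nat.div_mul_le_self X D
        have e2 := Nat.div_mul_le_self H D
        calc (X / D + (H / D + H / D)) * D = X / D * D + (H / D * D + H / D * D) := by ring
          _ ≤ X + 2 * H := by omega
      omega
    refine ⟨hbn, ?_⟩
    by_contra hcon
    have hg : ∀ i ≤ I, ¬ (2 ^ i ≤ 2 * ((range (2 ^ i)).filter (fun τ => ∀ j < k,
      ¬ Cyc (1 + D * (X / D + 1) + D * ((c n / D - (X / D + k + 1 + 2 ^ I) + (2 ^ I - τ)) + j)))).card) := by
      intro i hi hlt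
      apply hcon
      rw [hE, mem_filter, mem_range]
      refine ⟨?_, i, hi, by rw [hbadd, hb]; convert hlt⟩
      have h2 : c n / D ≤ (X + 3 * H) / D := Nat.div_le_div_right (by omega)
      have h3 : (X + 3 * H) / D ≤ X / D + 3 * H / D + 1 := by
        rw [← Nat.lt_succ_iff, Nat.div_lt_iff_lt_mul (by omega)]
        have e1 := Nat.lt_mul_div_succ X (show 0 < D by omega)
        have e2 := Nat.lt_mul_div_succ (3 * H) (show 0 < D by omega)
        have e3 : (X / D + 3 * H / D + 1).succ * D = D * (X / D + 1) + D * (3 * H / D + 1) := by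
          rw [Nat.succ_eq_add_one]; ring
        omega
      omega
    have hn4 : 4 ≤ n := by
      by_contra h2
      rcases Nat.lt_or_ge n 3 with h3 | h3
      · have := c_lt n 3 (by omega) h3
        omega
      · have h4 : n = 3 := by omega
        rw [h4] at hXn
        omega
    have hnR : (4 : ℝ) ≤ n := by exact_mod_cast hn4
    have hn1 : ((n - 1 : ℕ) : ℝ) = (n : ℝ) - 1 := by
      rw [Nat.cast_sub (by omega)]
      simp
    -- all m from 2 on
    have main : ∀ m : ℕ, 2 ≤ m → m + 1 < n →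
        (c n : ℝ) ^ (1 / ((n : ℝ) - 1)) < (c (m + 1) : ℝ) ^ (1 / (m : ℝ)) := by
      intro m hm hmn
      obtain ⟨t, ht⟩ : ∃ t : ℕ, n = m + 1 + t := ⟨n - (m + 1), by omega⟩
      have ht1 : 1 ≤ t := by omega
      rcases Nat.lt_or_ge (2 ^ I) (2 * k * t) with h2 | h2
      · -- far terms
        have h3 : H < 4 * k * D * t := by
          have e1 := Nat.lt_mul_div_succ H (show 0 < D by omega)
          have e2 : D * (H / D + 1) ≤ D * 2 ^ (I + 1) := Nat.mul_le_mul_left D hI2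
          have e3 : D * 2 ^ (I + 1) = 2 * D * 2 ^ I := by rw [pow_succ]; ring
          have e4 : 2 * D * 2 ^ I ≤ 2 * D * (2 * k * t) := Nat.mul_le_mul_left _ h2.le
          have e5 : 2 * D * (2 * k * t) = 4 * k * D * t := by ring
          omega
        have h3R : (H : ℝ) < 4 * k * D * t := by exact_mod_cast h3
        have hmR2 : (2 : ℝ) ≤ m := by exact_mod_cast hm
        have hmX : (m : ℝ) ≤ 2 * X := by
          have h4 : n ≤ c n := c_ge n (by omega)
          have h5 : (m : ℝ) ≤ 2 * X := by exact_mod_cast (by omega : m ≤ 2 * X)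
          linarith
        have hnm : (n : ℝ) - 1 = (m : ℝ) + t := by
          rw [ht]
          push_cast
          ring
        have hlog2 : Real.log (m : ℝ) ≤ 2 * L := by
          have h4 : Real.log (m : ℝ) ≤ Real.log (2 * X) := Real.log_le_log (by linarith) hmX
          rw [Real.log_mul (by norm_num) hX0.ne'] at h4
          have h5 : Real.log 2 ≤ 1 := by linarith [Real.log_two_lt_d9]
          linarith
        have hlog0 : 0 ≤ Real.log (m : ℝ) := Real.log_nonneg (by linarith)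
        have hpow : (m : ℝ) ^ (2 / 5 : ℝ) ≤ 2 * (X : ℝ) ^ (2 / 5 : ℝ) := by
          calc (m : ℝ) ^ (2 / 5 : ℝ) ≤ (2 * (X : ℝ)) ^ (2 / 5 : ℝ) :=
                Real.rpow_le_rpow (by linarith) hmX (by norm_num)
            _ = 2 ^ (2 / 5 : ℝ) * (X : ℝ) ^ (2 / 5 : ℝ) := Real.mul_rpow (by norm_num) hX0.le
            _ ≤ 2 * (X : ℝ) ^ (2 / 5 : ℝ) := by
                have h6 : (2 : ℝ) ^ (2 / 5 : ℝ) ≤ 2 := by
                  have := Real.rpow_le_rpow_of_exponent_le (show (1 : ℝ) ≤ 2 by norm_num)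
                    (show (2 / 5 : ℝ) ≤ 1 by norm_num)
                  rwa [Real.rpow_one] at this
                gcongr
        have hXd : 2 * C7 * L ^ 2 ≤ (X : ℝ) ^ d := by
          have h4 := hX3 X (a3.trans huX)
          rw [← hL] at h4
          have h5 : 2 * C7 * L ^ 2 ≤ 2 * C7 * (1 / (2 * C7) * (X : ℝ) ^ d) := by gcongr
          have h6 : 2 * C7 * (1 / (2 * C7) * (X : ℝ) ^ d) = (X : ℝ) ^ d := by
            field_simp
          linarith
        have hfar : C7 * (m : ℝ) ^ (2 / 5 : ℝ) * Real.log (m : ℝ) ≤ t := by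
          have hP : 0 < (X : ℝ) ^ (2 / 5 : ℝ) := Real.rpow_pos_of_pos hX0 _
          have h4 : C7 * (m : ℝ) ^ (2 / 5 : ℝ) * Real.log (m : ℝ) ≤
              C7 * (2 * (X : ℝ) ^ (2 / 5 : ℝ)) * (2 * L) := by
            gcongr
          have h5 : (X : ℝ) ^ (2 / 5 : ℝ) * (2 * C7 * L ^ 2) ≤ H := by
            refine le_trans ?_ hH1
            rw [Real.rpow_add hX0]
            gcongr
          have h6 : (4 * (k : ℝ) * D) * (C7 * (2 * (X : ℝ) ^ (2 / 5 : ℝ)) * (2 * L)) ≤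
              (L / 2) * (C7 * (2 * (X : ℝ) ^ (2 / 5 : ℝ)) * (2 * L)) := by
            apply mul_le_mul_of_nonneg_right (by linarith) (by positivity)
          have h7' : (L / 2) * (C7 * (2 * (X : ℝ) ^ (2 / 5 : ℝ)) * (2 * L)) =
              (X : ℝ) ^ (2 / 5 : ℝ) * (2 * C7 * L ^ 2) := by ring
          have h8 : (4 * (k : ℝ) * D) * (C7 * (2 * (X : ℝ) ^ (2 / 5 : ℝ)) * (2 * L)) < (4 * (k : ℝ) * D) * t := by
            linarith
          have h9 : (0 : ℝ) < 4 * (k : ℝ) * D := by positivity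
          have h10 := lt_of_mul_lt_mul_left h8 h9.le
          linarith
        have h11 := h7 m (n - 1) hm (by rw [hn1, hnm]; linarith)
        have e3 : n - 1 + 1 = n := by omega
        rw [e3, hn1] at h11
        rw [Pool.Agent.H69.AL.c_eq, Pool.Agent.H69.AL.c_eq]
        exact h11
      · -- near terms
        have h3 := cou D k X n I hD2 hk1 (by omega) hg t ht1 (by omega) h2
        have e1 : n - t = m + 1 := by omega
        rw [e1] at h3
        refine near_step n m t k D (by omega) ht1 ht ?_ h3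
        have h4 : 8 * k * D * t ≤ 4 * H := by
          have e4 : 4 * D * (2 * k * t) ≤ 4 * D * (H / D) := Nat.mul_le_mul_left _ (h2.trans hI1)
          have e5 : 4 * D * (2 * k * t) = 8 * k * D * t := by ring
          have e6 : 4 * D * (H / D) = 4 * (D * (H / D)) := by ring
          have e7 := Nat.mul_div_le H D
          omega
        have h5 : X ≤ 2 * c (m + 1) := by omega
        have h5R : (X : ℝ) ≤ 2 * c (m + 1) := by exact_mod_cast h5
        have hcm : (0 : ℝ) < c (m + 1) := by linarith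
        have h6 : L ≤ Real.log 2 + Real.log (c (m + 1)) := by
          rw [← Real.log_mul (by norm_num) hcm.ne']
          exact Real.log_le_log hX0 h5R
        have h7'' : Real.log 2 ≤ 1 := by linarith [Real.log_two_lt_d9]
        nlinarith
    refine hPB fun m hm hmn => ?_
    rcases Nat.lt_or_ge m 2 with h2 | h2
    · have h3 : m = 1 := by omega
      subst h3
      refine (main 2 le_rfl (by omega)).trans_le ?_
      have h4 : (c (2 + 1) : ℝ) ≤ 3 := by exact_mod_cast c3_le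
      have h5 : (2 : ℝ) ≤ c (1 + 1) := by exact_mod_cast c_ge 2 (by norm_num)
      have h6 : (c (2 + 1) : ℝ) ^ (1 / ((2 : ℕ) : ℝ)) ≤ 2 := by
        have h8 : (2 : ℝ) ^ (2 : ℕ) = 4 := by norm_num
        have h9 : (c (2 + 1) : ℝ) ≤ (2 : ℝ) ^ (2 : ℕ) := by rw [h8]; linarith
        calc (c (2 + 1) : ℝ) ^ (1 / ((2 : ℕ) : ℝ)) ≤ ((2 : ℝ) ^ (2 : ℕ)) ^ (1 / ((2 : ℕ) : ℝ)) :=
              Real.rpow_le_rpow (Nat.cast_nonneg _) h9 (by positivity)
          _ = 2 := by
              rw [one_div]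
              exact Real.pow_rpow_inv_natCast (by norm_num) (by norm_num)
      refine h6.trans ?_
      rw [Nat.cast_one, div_one, Real.rpow_one]
      exact h5
    · exact main m h2 hmn
  -- the numbers
  have hI3 : (I : ℝ) ≤ 2 * L := by
    have h2 : 2 ^ I ≤ X := hI1.trans ((Nat.div_le_self _ _).trans (by omega))
    have h3 : (2 : ℝ) ^ I ≤ X := by exact_mod_cast h2
    have h4 := Real.log_le_log (by positivity) h3
    rw [Real.log_pow] at h4
    have h5 := Real.log_two_gt_d9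
    have h6 : (0 : ℝ) ≤ I := Nat.cast_nonneg _
    nlinarith
  have hLU2 : L ≤ U * U ^ (6 * C) := by
    refine hL2.trans ?_
    calc (U + 1) ^ (6 * C) ≤ (2 * U) ^ (6 * C) := pow_le_pow_left₀ (by linarith) (by linarith) _
      _ = 2 ^ (6 * C) * U ^ (6 * C) := mul_pow _ _ _
      _ ≤ U * U ^ (6 * C) := by gcongr
  have hnum : 8 * (D : ℝ) * (I + 1) ≤ Real.exp (U / 12) := by
    have hD0 : (0 : ℝ) ≤ D := Nat.cast_nonneg _
    have h2 : 8 * (D : ℝ) * (I + 1) ≤ 20 * D * L := by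
      have h3 : 8 * ((I : ℝ) + 1) ≤ 20 * L := by linarith
      nlinarith
    have h3 : 20 * (D : ℝ) * L ≤ U * (U * U ^ (6 * C)) := by gcongr
    have h4 : U * (U * U ^ (6 * C)) = U ^ (6 * C + 2) := by ring
    linarith
  have hfin : (NS PB (X + 2 * H) H : ℝ) ≤ D * (2 * (I + 1) * (((4 * H : ℕ) : ℝ) * Real.exp (-(U / 3)))) := by
    have h2 : (NS PB (X + 2 * H) H : ℝ) ≤ D * E.card := by exact_mod_cast hidx
    have h3 : (E.card : ℝ) ≤ 2 * (I + 1) * ((range (4 * H / D + 2)).filter bad).card := by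
      exact_mod_cast hw1.trans (Nat.mul_le_mul_left _ hmono)
    calc (NS PB (X + 2 * H) H : ℝ) ≤ D * E.card := h2
      _ ≤ D * (2 * (I + 1) * ((range (4 * H / D + 2)).filter bad).card) := by gcongr
      _ ≤ D * (2 * (I + 1) * (((4 * H : ℕ) : ℝ) * Real.exp (-(U / 3)))) := by gcongr
  calc (NS PB (X + 2 * H) H : ℝ) ≤ D * (2 * (I + 1) * (((4 * H : ℕ) : ℝ) * Real.exp (-(U / 3)))) := hfin
    _ = (8 * (D : ℝ) * (I + 1)) * (H * Real.exp (-(U / 3))) := by push_cast; ring
    _ ≤ Real.exp (U / 12) * (H * Real.exp (-(U / 3))) := by gcongr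
    _ = H * (Real.exp (U / 12) * Real.exp (-(U / 3))) := by ring
    _ = H * Real.exp (-(U / 4)) := by
        rw [← Real.exp_add]
        congr 2
        ring

/-- without the shift -/
theorem finP : ∃ C : ℕ, 2 ≤ C ∧ ∀ (d C0 W0 : ℝ) (x0 : ℕ), 0 < d → d ≤ 1 / 10 → 0 < C0 → BadB d C0 W0 x0 →
    ∃ u0 : ℕ, 1 ≤ u0 ∧ ∀ u : ℕ, u0 ≤ u → ∀ X H : ℕ,
    Real.exp ((u : ℝ) ^ (6 * C)) ≤ X → (X : ℝ) ≤ Real.exp (((u : ℝ) + 1) ^ (6 * C)) →
    (X : ℝ) ^ (2 / 5 + d) ≤ H → 16 * H ≤ X → (NS PB X H : ℝ) ≤ H * Real.exp (-((u : ℝ) / 6)) := by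
  obtain ⟨C, hC, h⟩ := finR
  refine ⟨C, hC, fun d C0 W0 x0 hd hd1 hC0 hbad => ?_⟩
  obtain ⟨u0, hu0, h1⟩ := h d C0 W0 x0 hd hd1 hC0 hbad
  refine ⟨u0 + 3, by omega, ?_⟩
  intro u hu X H hX1 hX2 hH1 hH2
  obtain ⟨X1, hX1d⟩ : ∃ X1, X = X1 + 2 * H := ⟨X - 2 * H, by omega⟩
  have hR3 : (3 : ℝ) ≤ u := by exact_mod_cast (by omega : 3 ≤ u)
  have hXX : (X1 : ℝ) ≤ X := by exact_mod_cast (by omega : X1 ≤ X)
  have hXX2 : (X : ℝ) ≤ 2 * X1 := by exact_mod_cast (by omega : X ≤ 2 * X1)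
  have hX0 : (0 : ℝ) < X := lt_of_lt_of_le (Real.exp_pos _) hX1
  have hpw : (X1 : ℝ) ^ (2 / 5 + d) ≤ H := by
    refine le_trans ?_ hH1
    exact Real.rpow_le_rpow (Nat.cast_nonneg _) hXX (by linarith)
  have hH0 : (0 : ℝ) ≤ H := Nat.cast_nonneg _
  rcases le_or_gt (Real.exp ((u : ℝ) ^ (6 * C))) X1 with h2 | h2
  · have h3 := h1 u (by omega) X1 H h2 (hXX.trans hX2) hpw (by omega)
    rw [← hX1d] at h3
    refine h3.trans ?_
    have h4 : Real.exp (-((u : ℝ) / 4)) ≤ Real.exp (-((u : ℝ) / 6)) := Real.exp_le_exp.2 (by linarith)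
    gcongr
  · have hu1 : ((u - 1 : ℕ) : ℝ) = (u : ℝ) - 1 := by
      rw [Nat.cast_sub (by omega)]
      simp
    have h3 : Real.exp (((u - 1 : ℕ) : ℝ) ^ (6 * C)) ≤ X1 := by
      rw [hu1]
      have h4 : ((u : ℝ) - 1) ^ (6 * C) + 1 ≤ (u : ℝ) ^ (6 * C) := by
        obtain ⟨N, hN⟩ : ∃ N, 6 * C = N + 1 := ⟨6 * C - 1, by omega⟩
        rw [hN, pow_succ, pow_succ]
        have h5 : ((u : ℝ) - 1) ^ N ≤ (u : ℝ) ^ N := pow_le_pow_left₀ (by linarith) (by linarith) _
        have h6 : (1 : ℝ) ≤ (u : ℝ) ^ N := one_le_pow₀ (by linarith)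
        have h7 : ((u : ℝ) - 1) ^ N * ((u : ℝ) - 1) ≤ (u : ℝ) ^ N * ((u : ℝ) - 1) :=
          mul_le_mul_of_nonneg_right h5 (by linarith)
        nlinarith
      have h5 : Real.exp (((u : ℝ) - 1) ^ (6 * C)) * 2 ≤ Real.exp ((u : ℝ) ^ (6 * C)) := by
        have h6 : (2 : ℝ) ≤ Real.exp 1 := by
          have := Real.add_one_le_exp (1 : ℝ)
          linarith
        calc Real.exp (((u : ℝ) - 1) ^ (6 * C)) * 2 ≤ Real.exp (((u : ℝ) - 1) ^ (6 * C)) * Real.exp 1 := by gcongr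
          _ = Real.exp (((u : ℝ) - 1) ^ (6 * C) + 1) := (Real.exp_add _ _).symm
          _ ≤ Real.exp ((u : ℝ) ^ (6 * C)) := Real.exp_le_exp.2 h4
      linarith
    have h4 := h1 (u - 1) (by omega) X1 H h3 (by
      rw [hu1, sub_add_cancel]
      exact h2.le) hpw (by omega)
    rw [← hX1d, hu1] at h4
    refine h4.trans ?_
    have h5 : Real.exp (-(((u : ℝ) - 1) / 4)) ≤ Real.exp (-((u : ℝ) / 6)) := Real.exp_le_exp.2 (by linarith)
    gcongr

end Pool.Agent.H69.EA
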