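import Pool.Agent.H69.EA.Ext
import Pool.Agent.H69.EA.Fin
import Pool.Agent.H8.SG.Main

/-!
[H69 EA MAIN] records in short intervals.
-/

set_option autoImplicit false

namespace Pool.Agent.H69.EA

open Finset Classical Pool.Agent.H89.CY Pool.Agent.H8.SG

theorem rec4 : ∃ c' : ℝ, 0 < c' ∧ ∀ δ : ℝ, 0 < δ → ∃ C1 : ℝ, 0 < C1 ∧ ∀ x y : ℕ, 2 ≤ x →
      (x : ℝ) ^ (2 / 5 + δ) ≤ y → y ≤ x → (NS PB x y : ℝ) ≤ C1 * y * Real.exp (-(Real.log x) ^ c') := by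
  obtain ⟨C, hC, h⟩ := finP
  refine extPB C hC fun d hd hd1 => ?_
  obtain ⟨C0, W0, x0, hC0, hb1⟩ := hb d hd hd1
  exact h d C0 W0 x0 hd hd1 hC0 hb1

end Pool.Agent.H69.EA
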